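import Pool.Agent.Helper54.SP.StmtsW

/-! Completeness of the bilinear system. -/

set_option autoImplicit false

namespace Pool.Agent.Helper54.SP

attribute [local irreducible] qn an bn

open Finset

/-- large numbers -/
noncomputable def rcT (i : ℕ) : ℝ := 9 / 8 * (3 / 2) ^ (2 ^ i)

/-- small numbers -/
noncomputable def rcH (i : ℕ) : ℝ := 2 * (1 / 8) ^ (2 ^ i)

/-- auxiliary values -/
noncomputable def rcA (E : List Be) (S : ℕ → ℝ) (R : ℝ) (t r : ℕ) : ℝ :=
  if (E.getD t (0, 0, 0, 0)).1 = 0 ∨ (E.getD t (0, 0, 0, 0)).1 = 1 then 1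
  else if r = 0 then
    S (E.getD t (0, 0, 0, 0)).2.1 * S (E.getD t (0, 0, 0, 0)).2.2.1 + R ^ 2
  else R * (S (E.getD t (0, 0, 0, 0)).2.1 + S (E.getD t (0, 0, 0, 0)).2.2.1)

/-- common values of the variables from `5` on -/
noncomputable def rcV (E : List Be) (S : ℕ → ℝ) (R : ℝ) (p : ℕ) : ℝ :=
  if p < 6 + an E.length then rcT (p - 5)
  else if p < 7 + an E.length + bn E.length then rcH (p - (6 + an E.length))
  else if p < 7 + an E.length + bn E.length + E.length then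
    S (p - (7 + an E.length + bn E.length))
  else rcA E S R ((p - (7 + an E.length + bn E.length + E.length)) / 2)
    ((p - (7 + an E.length + bn E.length + E.length)) % 2)

/-- first coordinates -/
noncomputable def rcX (E : List Be) (S : ℕ → ℝ) (R h : ℝ) (p : ℕ) : ℝ :=
  if p = 1 then h / 8 else if p = 2 then R else if p < 5 then 1 else rcV E S R p

/-- second coordinates -/
noncomputable def rcY (E : List Be) (S : ℕ → ℝ) (R h : ℝ) (p : ℕ) : ℝ :=
  if p = 2 then R else if p = 3 then 1 + h / 2 else if p = 4 then 1 - h / 2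
  else if p < 5 then 1 else rcV E S R p

theorem rc_T0 : rcT 0 = 27 / 16 := by
  unfold rcT
  norm_num

theorem rc_H0 : rcH 0 = 1 / 4 := by
  unfold rcH
  norm_num

theorem rc_Hs (i : ℕ) : rcH (i + 1) = rcH i ^ 2 / 2 := by
  unfold rcH
  rw [pow_succ 2 i, pow_mul]
  ring

theorem rc_Hpos (i : ℕ) : 0 < rcH i := by
  unfold rcH
  positivity

theorem rc_Hle (i : ℕ) : rcH i ≤ 1 / 4 := by
  induction i with
  | zero => rw [rc_H0]
  | succ i ih =>
    rw [rc_Hs]
    have := rc_Hpos i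
    nlinarith

theorem rc_Hanti (i k : ℕ) : rcH (i + k) ≤ rcH i := by
  induction k with
  | zero => exact le_rfl
  | succ k ih =>
    refine le_trans ?_ ih
    rw [← add_assoc, rc_Hs]
    have h1 := rc_Hpos (i + k)
    have h2 := rc_Hle (i + k)
    nlinarith

theorem rc_Ts (i : ℕ) : rcT (i + 1) + 1 / 4 < rcT i ^ 2 := by
  unfold rcT
  rw [pow_succ 2 i, pow_mul]
  set u : ℝ := (3 / 2) ^ 2 ^ i with hu
  have h1 : (3 / 2 : ℝ) ≤ u := by
    rw [hu]
    calc (3 / 2 : ℝ) = (3 / 2) ^ 1 := (pow_one _).symm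
      _ ≤ (3 / 2) ^ 2 ^ i := pow_le_pow_right₀ (by norm_num) Nat.one_le_two_pow
  nlinarith

theorem rc_Tpos (i : ℕ) : 0 < rcT i := by
  unfold rcT
  positivity

/-- the last large number is huge -/
theorem rc_Tan' (n : ℕ) : ((2 : ℝ) ^ 2 ^ n) ^ 32 ≤ rcT (n + 6) := by
  unfold rcT
  have h1 : (2 : ℝ) ^ 32 ≤ (3 / 2) ^ 64 := by norm_num
  have e1 : 2 ^ (n + 6) = 64 * 2 ^ n := by
    rw [pow_add]
    norm_num
    exact mul_comm _ _
  have e2 : (0 : ℝ) < (3 / 2 : ℝ) ^ 2 ^ (n + 6) := by positivity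
  have e3 : ((2 : ℝ) ^ 2 ^ n) ^ 32 ≤ (3 / 2 : ℝ) ^ 2 ^ (n + 6) := by
    calc ((2 : ℝ) ^ 2 ^ n) ^ 32 = ((2 : ℝ) ^ 32) ^ 2 ^ n := by
          rw [← pow_mul, ← pow_mul, mul_comm]
      _ ≤ ((3 / 2 : ℝ) ^ 64) ^ 2 ^ n := pow_le_pow_left₀ (by norm_num) h1 _
      _ = (3 / 2 : ℝ) ^ 2 ^ (n + 6) := by rw [← pow_mul, e1]
  linarith

theorem rc_Tan (ν : ℕ) : ((2 : ℝ) ^ 2 ^ (qn ν)) ^ 32 ≤ rcT (an ν) := by
  unfold an
  exact rc_Tan' (qn ν)

theorem rc_u1 {a h : ℝ} (ha : 1 ≤ a) (hh : 0 < h) : a + h / 4 < a * (1 + h / 2) := by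
  nlinarith

theorem rc_u2 {a h : ℝ} (ha : 1 ≤ a) (hh : 0 < h) : a * (1 - h / 2) + h / 4 < a := by
  nlinarith

theorem st_RC (hRB : ST_RB) : ST_RC := by
  intro E hE hEB hz
  obtain ⟨z, hzB, hzE⟩ := hRB E hE hEB hz
  set ν := E.length with hν
  set B : ℝ := 2 ^ 2 ^ (qn ν) with hB
  have hB2 : 2 ≤ B := by
    rw [hB]
    calc (2 : ℝ) = 2 ^ 1 := (pow_one _).symm
      _ ≤ 2 ^ 2 ^ (qn ν) := pow_le_pow_right₀ (by norm_num) Nat.one_le_two_pow
  have hTan : 9 * B ^ 2 + 1 < rcT (an ν) := by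
    refine lt_of_lt_of_le ?_ (rc_Tan ν)
    rw [← hB]
    clear_value B
    have h4 : 4 ≤ B ^ 2 := by nlinarith
    have h5 : (4 : ℝ) ^ 15 ≤ (B ^ 2) ^ 15 := pow_le_pow_left₀ (by norm_num) h4 15
    have h6 : B ^ 32 = B ^ 2 * (B ^ 2) ^ 15 := by ring
    rw [h6]
    have h7 : (10 : ℝ) ≤ (B ^ 2) ^ 15 := le_trans (by norm_num) h5
    nlinarith
  clear_value B
  obtain ⟨R, hR⟩ : ∃ R : ℝ, R = B + 1 := ⟨_, rfl⟩
  obtain ⟨S, hS⟩ : ∃ S : ℕ → ℝ, ∀ i, S i = z i + R := ⟨_, fun _ => rfl⟩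
  have hS1 : ∀ i, 1 ≤ S i := fun i => by
    have := (abs_le.1 (hzB i)).1
    rw [hS, hR]
    linarith
  have hS2 : ∀ i, S i ≤ 2 * B + 1 := fun i => by
    have := (abs_le.1 (hzB i)).2
    rw [hS, hR]
    linarith
  have hA : ∀ t r, 1 ≤ rcA E S R t r ∧ rcA E S R t r ≤ 9 * B ^ 2 := by
    intro t r
    unfold rcA
    set p := (E.getD t (0, 0, 0, 0)).2.1
    set q := (E.getD t (0, 0, 0, 0)).2.2.1
    have h1 := hS1 p
    have h2 := hS1 q
    have h3 := hS2 p
    have h4 := hS2 q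
    split_ifs
    · constructor <;> nlinarith
    · constructor
      · nlinarith [mul_le_mul h1 h2 zero_le_one (by linarith)]
      · have := mul_le_mul h3 h4 (by linarith) (by linarith)
        rw [hR]
        nlinarith
    · constructor
      · rw [hR]
        nlinarith
      · rw [hR]
        nlinarith
  obtain ⟨h, hh⟩ : ∃ h : ℝ, h = rcH (bn ν) := ⟨_, rfl⟩
  have hh0 : 0 < h := by
    rw [hh]
    exact rc_Hpos _
  have hh1 : h ≤ 1 / 4 := by
    rw [hh]
    exact rc_Hle _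
  set X := rcX E S R h with hX
  set Y := rcY E S R h with hY
  -- values
  have X0 : X 0 = 1 := by simp [hX, rcX]
  have X1 : X 1 = h / 8 := by simp [hX, rcX]
  have X2 : X 2 = R := by simp [hX, rcX]
  have Y0 : Y 0 = 1 := by simp [hY, rcY]
  have Y2 : Y 2 = R := by simp [hY, rcY]
  have Y3 : Y 3 = 1 + h / 2 := by simp [hY, rcY]
  have Y4 : Y 4 = 1 - h / 2 := by simp [hY, rcY]
  have XV : ∀ p, 5 ≤ p → X p = rcV E S R p := by
    intro p hp
    simp only [hX, rcX]
    rw [if_neg (by omega), if_neg (by omega), if_neg (by omega)]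
  have YV : ∀ p, 5 ≤ p → Y p = rcV E S R p := by
    intro p hp
    simp only [hY, rcY]
    rw [if_neg (by omega), if_neg (by omega), if_neg (by omega), if_neg (by omega)]
  have VT : ∀ i, i ≤ an ν → rcV E S R (5 + i) = rcT i := by
    intro i hi
    unfold rcV
    rw [← hν, if_pos (by omega)]
    exact congrArg rcT (by omega)
  have VH : ∀ i, i ≤ bn ν → rcV E S R (hv ν i) = rcH i := by
    intro i hi
    unfold rcV hv
    rw [← hν, if_neg (by omega), if_pos (by omega)]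
    exact congrArg rcH (by omega)
  have VS : ∀ i, i < ν → rcV E S R (xv ν i) = S i := by
    intro i hi
    unfold rcV xv
    rw [← hν, if_neg (by omega), if_neg (by omega), if_pos (by omega)]
    exact congrArg S (by omega)
  have VA : ∀ t r, r < 2 → rcV E S R (av ν t r) = rcA E S R t r := by
    intro t r hr
    unfold rcV av
    rw [← hν, if_neg (by omega), if_neg (by omega), if_neg (by omega)]
    have e1 : (7 + an ν + bn ν + ν + 2 * t + r - (7 + an ν + bn ν + ν)) / 2 = t := by omega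
    have e2 : (7 + an ν + bn ν + ν + 2 * t + r - (7 + an ν + bn ν + ν)) % 2 = r := by omega
    rw [e1, e2]
  have hv5 : ∀ i, 5 ≤ hv ν i := fun i => by
    unfold hv
    omega
  have xv5 : ∀ i, 5 ≤ xv ν i := fun i => by
    unfold xv
    omega
  have av5 : ∀ t r, 5 ≤ av ν t r := fun t r => by
    unfold av
    omega
  have XT : ∀ i, i ≤ an ν → X (5 + i) = rcT i := fun i hi => by rw [XV _ (by omega), VT i hi]
  have YT : ∀ i, i ≤ an ν → Y (5 + i) = rcT i := fun i hi => by rw [YV _ (by omega), VT i hi]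
  have XH : ∀ i, i ≤ bn ν → X (hv ν i) = rcH i := fun i hi => by rw [XV _ (hv5 i), VH i hi]
  have YH : ∀ i, i ≤ bn ν → Y (hv ν i) = rcH i := fun i hi => by rw [YV _ (hv5 i), VH i hi]
  have XS : ∀ i, i < ν → X (xv ν i) = S i := fun i hi => by rw [XV _ (xv5 i), VS i hi]
  have YS : ∀ i, i < ν → Y (xv ν i) = S i := fun i hi => by rw [YV _ (xv5 i), VS i hi]
  have XA : ∀ t r, r < 2 → X (av ν t r) = rcA E S R t r := fun t r hr => by
    rw [XV _ (av5 t r), VA t r hr]
  have YA : ∀ t r, r < 2 → Y (av ν t r) = rcA E S R t r := fun t r hr => by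
    rw [YV _ (av5 t r), VA t r hr]
  have Vpos : ∀ p, 0 < rcV E S R p := by
    intro p
    unfold rcV
    split_ifs
    · exact rc_Tpos _
    · exact rc_Hpos _
    · linarith [hS1 (p - (7 + an E.length + bn E.length))]
    · linarith [(hA ((p - (7 + an E.length + bn E.length + E.length)) / 2)
        ((p - (7 + an E.length + bn E.length + E.length)) % 2)).1]
  have Xpos : ∀ p, 0 < X p := by
    intro p
    simp only [hX, rcX]
    split_ifs
    · linarith
    · linarith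
    · exact one_pos
    · exact Vpos p
  have Ypos : ∀ p, 0 < Y p := by
    intro p
    simp only [hY, rcY]
    split_ifs
    · linarith
    · linarith
    · linarith
    · exact one_pos
    · exact Vpos p
  -- bounds of the variables
  have bd : ∀ u, 2 ≤ u → X u = Y u → 1 ≤ X u → X u ≤ 9 * B ^ 2 → ∀ q ∈ bdI ν u,
      pp X Y q 0 + pp X Y q 1 + pp X Y q 2 < pp X Y q 3 + pp X Y q 4 := by
    intro u _ hxy h1 h2 q hq
    simp only [bdI, List.mem_cons, List.not_mem_nil, or_false] at hq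
    rcases hq with rfl | rfl | rfl
    · change X u * Y 0 + X 0 * Y 0 + X 1 * Y 0 < X (5 + an ν) * Y 0 + X 0 * Y 0
      rw [X0, Y0, X1, XT _ le_rfl]
      linarith
    · change X u * Y 4 + X 0 * Y 0 + X 1 * Y 0 < X 0 * Y u + X 0 * Y 0
      rw [X0, Y0, X1, Y4, ← hxy]
      have := rc_u2 h1 hh0
      linarith
    · change X 0 * Y u + X 0 * Y 0 + X 1 * Y 0 < X u * Y 3 + X 0 * Y 0
      rw [X0, Y0, X1, Y3, ← hxy]
      have := rc_u1 h1 hh0
      linarith
  refine ⟨X, Y, Xpos, Ypos, ?_⟩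
  intro q hq
  unfold bil at hq
  rw [← hν] at hq
  simp only [List.mem_append, List.mem_flatMap, List.mem_range] at hq
  rcases hq with hq | ⟨i, hi, hq⟩ | ⟨i, hi, hq⟩ | hq | ⟨i, hi, hq⟩ | ⟨t, ht, hq⟩
  · simp only [stI, List.mem_cons, List.not_mem_nil, or_false] at hq
    rcases hq with rfl | rfl | rfl | rfl | rfl | rfl
    · change X 5 * Y 0 + X 1 * Y 0 + X 1 * Y 0 < X 0 * Y 0 + X 0 * Y 0
      rw [show X 5 = rcT 0 from XT 0 (Nat.zero_le _), X0, X1, Y0, rc_T0]
      linarith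
    · change X 0 * Y 5 + X 1 * Y 0 + X 1 * Y 0 < X 0 * Y 0 + X 0 * Y 0
      rw [show Y 5 = rcT 0 from YT 0 (Nat.zero_le _), X0, X1, Y0, rc_T0]
      linarith
    · change X (hv ν 0) * Y 0 + X (hv ν 0) * Y 0 + X 0 * Y 0 < X 0 * Y 0 + X 0 * Y 0
      rw [XH 0 (Nat.zero_le _), X0, Y0, rc_H0]
      norm_num
    · change X 0 * Y (hv ν 0) + X 0 * Y (hv ν 0) + X 0 * Y 0 < X 0 * Y 0 + X 0 * Y 0
      rw [YH 0 (Nat.zero_le _), X0, Y0, rc_H0]
      norm_num
    · change X 0 * Y 3 + X 1 * Y 0 + X 1 * Y 0 < X 0 * Y 0 + X (hv ν (bn ν)) * Y 0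
      rw [XH (bn ν) le_rfl, ← hh, X0, Y0, X1, Y3]
      linarith
    · change X 0 * Y 0 + X 1 * Y 0 + X 1 * Y 0 < X 0 * Y 4 + X (hv ν (bn ν)) * Y 0
      rw [XH (bn ν) le_rfl, ← hh, X0, Y0, X1, Y4]
      linarith
  · have hT := rc_Ts i
    have e1 : X (5 + i + 1) = rcT (i + 1) := XT (i + 1) (by omega)
    have e2 : Y (5 + i + 1) = rcT (i + 1) := YT (i + 1) (by omega)
    simp only [sqI, List.mem_cons, List.not_mem_nil, or_false] at hq
    rcases hq with rfl | rfl
    · change X (5 + i + 1) * Y 0 + X 0 * Y 0 + X 1 * Y 0 < X (5 + i) * Y (5 + i) + X 0 * Y 0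
      rw [e1, XT i (by omega), YT i (by omega), X0, Y0, X1]
      nlinarith
    · change X 0 * Y (5 + i + 1) + X 0 * Y 0 + X 1 * Y 0 < X (5 + i) * Y (5 + i) + X 0 * Y 0
      rw [e2, XT i (by omega), YT i (by omega), X0, Y0, X1]
      nlinarith
  · have hs := rc_Hs i
    have hle : h ≤ rcH (i + 1) := by
      have := rc_Hanti (i + 1) (bn ν - (i + 1))
      have e : i + 1 + (bn ν - (i + 1)) = bn ν := by omega
      rw [e, ← hh] at this
      exact this
    simp only [sqI, List.mem_cons, List.not_mem_nil, or_false] at hq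
    rcases hq with rfl | rfl
    · change X (hv ν (i + 1)) * Y 0 + X 0 * Y 0 + X 1 * Y 0 <
        X (hv ν i) * Y (hv ν i) + X 0 * Y 0
      rw [XH (i + 1) (by omega), XH i (by omega), YH i (by omega), X0, Y0, X1]
      nlinarith
    · change X 0 * Y (hv ν (i + 1)) + X 0 * Y 0 + X 1 * Y 0 <
        X (hv ν i) * Y (hv ν i) + X 0 * Y 0
      rw [YH (i + 1) (by omega), XH i (by omega), YH i (by omega), X0, Y0, X1]
      nlinarith
  · refine bd 2 le_rfl (by rw [X2, Y2]) ?_ ?_ q hq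
    · rw [X2, hR]
      linarith
    · rw [X2, hR]
      nlinarith
  · rcases Nat.lt_or_ge i ν with h1 | h1
    · refine bd _ (by have := xv5 i; omega) (by rw [XS i h1, YS i h1]) ?_ ?_ q hq
      · rw [XS i h1]
        exact hS1 i
      · rw [XS i h1]
        have := hS2 i
        nlinarith
    · have e1 : xv ν i = av ν ((i - ν) / 2) ((i - ν) % 2) := by
        unfold xv av
        omega
      have hr : (i - ν) % 2 < 2 := Nat.mod_lt _ two_pos
      rw [e1] at hq
      refine bd _ (by have := av5 ((i - ν) / 2) ((i - ν) % 2); omega)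
        (by rw [XA _ _ hr, YA _ _ hr]) ?_ ?_ q hq
      · rw [XA _ _ hr]
        exact (hA _ _).1
      · rw [XA _ _ hr]
        exact (hA _ _).2
  · have hmem : E.getD t (0, 0, 0, 0) ∈ E := by
      rw [List.getD_eq_getElem _ _ ht]
      exact List.getElem_mem ht
    obtain ⟨b1, b2, b3⟩ := hEB _ hmem
    have hH := hzE _ hmem
    have a1 := XA t 0 (by norm_num)
    have a2 := XA t 1 (by norm_num)
    unfold rcA at a1 a2
    generalize E.getD t (0, 0, 0, 0) = e at hq b1 b2 b3 hH a1 a2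
    rw [← hν] at b1 b2 b3
    have p1 := hS1 e.2.1
    have p2 := hS1 e.2.2.1
    have p3 := hS1 e.2.2.2
    have hR1 : 1 ≤ R := by
      rw [hR]
      linarith
    have p12 : 1 ≤ S e.2.1 * S e.2.2.1 := by
      have := mul_le_mul p1 p2 zero_le_one (by linarith)
      linarith
    have pR : 1 ≤ R ^ 2 := one_le_pow₀ hR1
    have pR1 : 1 ≤ R * S e.2.1 := by
      have := mul_le_mul hR1 p1 zero_le_one (by linarith)
      linarith
    have pR2 : 1 ≤ R * S e.2.2.1 := by
      have := mul_le_mul hR1 p2 zero_le_one (by linarith)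
      linarith
    unfold BHolds at hH
    unfold eqI at hq
    by_cases k0 : e.1 = 0
    · rw [if_pos k0] at hH hq
      have hS0 : S e.2.1 = 1 + R := by rw [hS, hH]
      have u1 := rc_u1 (show 1 ≤ 1 + R by linarith) hh0
      have u2 := rc_u2 (show 1 ≤ 1 + R by linarith) hh0
      simp only [List.mem_cons, List.not_mem_nil, or_false] at hq
      rcases hq with rfl | rfl
      · change X (xv ν e.2.1) * Y 4 + X 1 * Y 0 + X 1 * Y 0 < X 2 * Y 0 + X 0 * Y 0
        rw [XS _ b1, hS0, Y4, X1, Y0, X2, X0]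
        linarith
      · change X 2 * Y 0 + X 0 * Y 0 + X 0 * Y 0 < X (xv ν e.2.1) * Y 3 + X 0 * Y 0
        rw [XS _ b1, hS0, Y3, Y0, X2, X0]
        linarith
    · rw [if_neg k0] at hH hq
      by_cases k1 : e.1 = 1
      · rw [if_pos k1] at hH hq
        have hS0 : S e.2.1 + S e.2.2.1 = S e.2.2.2 + R := by
          rw [hS, hS, hS]
          linarith
        have u1 := rc_u1 (show 1 ≤ S e.2.2.2 + R by linarith) hh0
        have u2 := rc_u2 (show 1 ≤ S e.2.2.2 + R by linarith) hh0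
        simp only [List.mem_cons, List.not_mem_nil, or_false] at hq
        rcases hq with rfl | rfl
        · change X (xv ν e.2.1) * Y 0 + X (xv ν e.2.2.1) * Y 0 + X 1 * Y 0 <
            X (xv ν e.2.2.2) * Y 3 + X 2 * Y 3
          rw [XS _ b1, XS _ b2, XS _ b3, Y3, X1, Y0, X2]
          linarith
        · change X (xv ν e.2.2.2) * Y 4 + X 2 * Y 4 + X 1 * Y 0 <
            X (xv ν e.2.1) * Y 0 + X (xv ν e.2.2.1) * Y 0
          rw [XS _ b1, XS _ b2, XS _ b3, Y4, X1, Y0, X2]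
          linarith
      · rw [if_neg k1] at hH hq
        have kk : ¬ (e.1 = 0 ∨ e.1 = 1) := fun h => h.elim k0 k1
        rw [if_neg kk, if_pos rfl] at a1
        rw [if_neg kk, if_neg one_ne_zero] at a2
        have hS0 : S e.2.1 * S e.2.2.1 + R ^ 2 + R =
            S e.2.2.2 + R * (S e.2.1 + S e.2.2.1) := by
          rw [hS, hS, hS]
          linear_combination hH
        have u1 := rc_u1 (show 1 ≤ S e.2.1 * S e.2.2.1 + R ^ 2 by linarith) hh0
        have u2 := rc_u2 (show 1 ≤ S e.2.1 * S e.2.2.1 + R ^ 2 by linarith) hh0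
        have u3 := rc_u1 (show 1 ≤ R * (S e.2.1 + S e.2.2.1) by linarith) hh0
        have u4 := rc_u2 (show 1 ≤ R * (S e.2.1 + S e.2.2.1) by linarith) hh0
        have u5 := rc_u1 (show 1 ≤ S e.2.2.2 + R * (S e.2.1 + S e.2.2.1) by linarith) hh0
        have u6 := rc_u2 (show 1 ≤ S e.2.2.2 + R * (S e.2.1 + S e.2.2.1) by linarith) hh0
        simp only [List.mem_cons, List.not_mem_nil, or_false] at hq
        rcases hq with rfl | rfl | rfl | rfl | rfl | rfl
        · change X (xv ν e.2.1) * Y (xv ν e.2.2.1) + X 2 * Y 2 + X 0 * Y 0 <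
            X (av ν t 0) * Y 3 + X 0 * Y 0
          rw [XS _ b1, YS _ b2, X2, Y2, X0, Y0, a1, Y3]
          linarith
        · change X (av ν t 0) * Y 4 + X 1 * Y 0 + X 1 * Y 0 <
            X (xv ν e.2.1) * Y (xv ν e.2.2.1) + X 2 * Y 2
          rw [XS _ b1, YS _ b2, X2, Y2, X1, Y0, a1, Y4]
          linarith
        · change X (xv ν e.2.1) * Y 2 + X (xv ν e.2.2.1) * Y 2 + X 0 * Y 0 <
            X (av ν t 1) * Y 3 + X 0 * Y 0
          rw [XS _ b1, XS _ b2, Y2, X0, Y0, a2, Y3]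
          linarith
        · change X (av ν t 1) * Y 4 + X 1 * Y 0 + X 1 * Y 0 <
            X (xv ν e.2.1) * Y 2 + X (xv ν e.2.2.1) * Y 2
          rw [XS _ b1, XS _ b2, Y2, X1, Y0, a2, Y4]
          linarith
        · change X (av ν t 0) * Y 0 + X 2 * Y 0 + X 1 * Y 0 <
            X (xv ν e.2.2.2) * Y 3 + X (av ν t 1) * Y 3
          rw [XS _ b3, X2, Y0, X1, a1, a2, Y3]
          linarith
        · change X (xv ν e.2.2.2) * Y 4 + X (av ν t 1) * Y 4 + X 1 * Y 0 <
            X (av ν t 0) * Y 0 + X 2 * Y 0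
          rw [XS _ b3, X2, Y0, X1, a1, a2, Y4]
          linarith

end Pool.Agent.Helper54.SP
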